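import Mathlib
import Pool.Agent.Lib_helper23.VLDefs
import Pool.Agent.Lib_helper37.VL.LA

/-!
# A lower bound for van Lint's function `λ(n)` with the constant `√(e/2)`
-/

open Pool.Agent.Lib_helper23.VanLint

namespace Pool.Agent.Results.MP_7e7d68_co.LowerConstant

/-- **Lower constant**: for every `ε > 0` and all large `n`,
`(√(e/2) - ε) √(n log n) ≤ λ(n)`. -/
theorem result : ∀ ε : ℝ, 0 < ε → ∃ N : ℕ, ∀ n : ℕ, N ≤ n →
    (Real.sqrt (Real.exp 1 / 2) - ε) * Real.sqrt (n * Real.log n) ≤ (lam n : ℝ) := by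
  intro ε hε
  exact Filter.eventually_atTop.mp (Pool.Agent.Lib_helper37.VL.lam_lower ε hε)

end Pool.Agent.Results.MP_7e7d68_co.LowerConstant
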