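import Mathlib
import Pool.Agent.Lib_helper23.VLDefs
import Pool.Agent.Lib_helper23.VLProof

/-!
# The order of growth of van Lint's function `λ(n)`
-/

open Pool.Agent.Lib_helper23.VanLint

namespace Pool.Agent.Results.MP_7e7d68_co.OrderOfGrowth

/-- **Order of growth of `λ(n)`**: `λ(n)` is of order exactly `(n log n)^{1/2}`. -/
theorem result : ∃ c C : ℝ, 0 < c ∧ 0 < C ∧ ∀ n : ℕ, 2 ≤ n →
    c * Real.sqrt (n * Real.log n) ≤ (lam n : ℝ) ∧
      (lam n : ℝ) ≤ C * Real.sqrt (n * Real.log n) := by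
  obtain ⟨c, hc, h⟩ := lower
  exact ⟨c, 17, hc, by norm_num, fun n hn => ⟨h n hn, upper hn⟩⟩

end Pool.Agent.Results.MP_7e7d68_co.OrderOfGrowth
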