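import Mathlib
import Pool.Agent.Lib_helper23.VLDefs
import Pool.Agent.Lib_helper37.VL.UA

/-!
# An upper bound for van Lint's function `λ(n)` with the constant `√e`
-/

open Pool.Agent.Lib_helper23.VanLint

namespace Pool.Agent.Results.MP_7e7d68_co.UpperConstant

/-- **Upper constant**: for every `ε > 0` and all large `n`,
`λ(n) ≤ (√e + ε) √(n log n)`. -/
theorem result : ∀ ε : ℝ, 0 < ε → ∃ N : ℕ, ∀ n : ℕ, N ≤ n →
    (lam n : ℝ) ≤ (Real.sqrt (Real.exp 1) + ε) * Real.sqrt (n * Real.log n) := by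
  intro ε hε
  exact Filter.eventually_atTop.mp (Pool.Agent.Lib_helper37.VL.lam_upper ε hε)

end Pool.Agent.Results.MP_7e7d68_co.UpperConstant
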